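import Pool.Agent.Lib.MP_a38b16_an.NC.Kit

/-! The Lagrange multiplier one half. -/

set_option autoImplicit false

open MeasureTheory Filter Topology Set

namespace Pool.Agent.Lib.MP_a38b16_an.NC

variable {a b : ℝ}

lemma int3 {μ : Measure ℝ} {h f1 f2 f3 : ℝ → ℝ} (i1 : Integrable f1 μ) (i2 : Integrable f2 μ)
    (i3 : Integrable f3 μ) (x1 x2 x3 : ℝ) (e : ∀ x, h x = x1 * f1 x + x2 * f2 x + x3 * f3 x) :
    ∫ x, h x ∂μ = x1 * ∫ x, f1 x ∂μ + x2 * ∫ x, f2 x ∂μ + x3 * ∫ x, f3 x ∂μ := by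
  simp only [e]
  rw [integral_add ((i1.const_mul x1).fun_add (i2.const_mul x2)) (i3.const_mul x3),
    integral_add (i1.const_mul x1) (i2.const_mul x2), integral_const_mul, integral_const_mul,
    integral_const_mul]

theorem core (w z : H10 a b) (p q P Q μ₁ μ₂ β g c : ℝ)
    (m1 : MemLp (fun x => w.val x ^ 3) 2 (volume.restrict (Ioo a b)))
    (m2 : MemLp (fun x => z.val x ^ 3) 2 (volume.restrict (Ioo a b)))
    (hv : ∀ x, w.val x = 0 ∨ z.val x = 0) (hd : ∀ x, w.der x = 0 ∨ z.der x = 0)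
    (heq : ∀ ψ : H10 a b, ∫ x in Ioo a b, (w.der x + z.der x) * ψ.der x =
      ∫ x in Ioo a b, (p * w.val x ^ 3 + q * z.val x ^ 3) * ψ.val x)
    (hP : ∫ x in Ioo a b, w.val x ^ 4 = P) (hQ : ∫ x in Ioo a b, z.val x ^ 4 = Q)
    (P0 : 0 < P) (Q0 : 0 < Q) (h1 : 0 < μ₁) (h2 : 0 < μ₂) (hg : 0 < g) (hc : 0 < c)
    (e0 : μ₁ * c ^ 2 = 2 * g * β) (e1 : 2 * g * μ₂ * (P + Q) = β * c ^ 2 * P)
    (e2 : (1 + 2 * g) * q = μ₂ * (1 + 4 * g))
    (e3 : (1 + 2 * g) * p = μ₂ * (1 + 4 * g) + 2 * g * β * c ^ 2) (e4 : p ≤ β * (1 + 2 * g)) :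
    ∃ l : ℝ, 0 ≤ l ∧ ∃ u v : H10 a b, IsConstrainedCritical l 0 μ₁ μ₂ β u v ∧
      ∃ φ ψ : H10 a b, dE l 0 μ₁ μ₂ β u v φ ψ ≠ 0 := by
  let I : H10 a b → ℝ := fun φ => ∫ x in Ioo a b, w.val x ^ 3 * φ.val x
  let J : H10 a b → ℝ := fun φ => ∫ x in Ioo a b, z.val x ^ 3 * φ.val x
  have iI : ∀ φ : H10 a b, Integrable (fun x => w.val x ^ 3 * φ.val x)
      (volume.restrict (Ioo a b)) := fun φ => m1.integrable_mul φ.memLp_val
  have iJ : ∀ φ : H10 a b, Integrable (fun x => z.val x ^ 3 * φ.val x)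
      (volume.restrict (Ioo a b)) := fun φ => m2.integrable_mul φ.memLp_val
  have hI : ∀ s t, I (comb s t w z) = s * P := fun s t => by
    rw [← hP, ← integral_const_mul]
    refine integral_congr_ae (ae_of_all _ fun x => ?_)
    rcases hv x with h | h <;> simp only [comb, h] <;> ring
  have hJ : ∀ s t, J (comb s t w z) = t * Q := fun s t => by
    rw [← hQ, ← integral_const_mul]
    refine integral_congr_ae (ae_of_all _ fun x => ?_)
    rcases hv x with h | h <;> simp only [comb, h] <;> ring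
  have hA : ∀ ψ, bil 0 (comb 1 1 w z) ψ = p * I ψ + q * J ψ := fun ψ => by
    have e := int3 (h := fun x => (p * w.val x ^ 3 + q * z.val x ^ 3) * ψ.val x) (iI ψ) (iJ ψ)
      (iJ ψ) p q 0 fun x => by ring
    rw [← heq, zero_mul, add_zero] at e
    rw [← e, bil]
    simp [comb]
  obtain ⟨M, hM⟩ : ∃ M, ∫ x in Ioo a b, w.val x ^ 2 = M := ⟨_, rfl⟩
  have M0 : 0 < M := by
    rw [← hM]
    refine lt_of_le_of_ne (integral_nonneg fun x => sq_nonneg _) fun h => P0.ne' ?_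
    rw [← hP]
    refine integral_eq_zero_of_ae ?_
    filter_upwards [(integral_eq_zero_iff_of_nonneg (fun x => sq_nonneg _)
      w.memLp_val.integrable_sq).1 h.symm] with x hx
    rw [pow_eq_zero_iff two_ne_zero |>.1 hx]
    simp
  have hG : ∫ x in Ioo a b, w.der x ^ 2 = p * P := by
    have e := hA (comb 1 0 w z)
    rw [hI, hJ, one_mul, zero_mul, mul_zero, add_zero] at e
    rw [← e, bil]
    refine integral_congr_ae (ae_of_all _ fun x => ?_)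
    rcases hd x with h | h <;> simp only [comb, h] <;> ring
  obtain ⟨l, l0, hl⟩ : ∃ l, 0 ≤ l ∧ p * P + l * M = (μ₁ * c ^ 2 + β) * P :=
    ⟨(β * (1 + 2 * g) - p) * P / M, div_nonneg (mul_nonneg (sub_nonneg.2 e4) P0.le) M0.le, by
      rw [div_mul_cancel₀ _ M0.ne', e0]; ring⟩
  have hB : ∀ s, bil l (comb c 0 w z) (comb s 0 w z) = c * s * ((μ₁ * c ^ 2 + β) * P) :=
    fun s => by
      rw [bil, int3 w.memLp_der.integrable_sq w.memLp_val.integrable_sq w.memLp_val.integrable_sq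
        (c * s) (c * s * l) 0 fun x => by simp only [comb]; ring, hG, hM, ← hl]
      ring
  have hE : ∀ φ ψ, dE l 0 μ₁ μ₂ β (comb c 0 w z) (comb 1 1 w z) φ ψ = bil l (comb c 0 w z) φ -
      (μ₁ * c ^ 3 + β * c) * I φ + (p - μ₂ - β * c ^ 2) * I ψ + (q - μ₂) * J ψ := fun φ ψ => by
    have t1 := int3 (h := fun x => (μ₁ * (comb c 0 w z).val x ^ 3 + β * ((comb c 0 w z).val x *
      (comb 1 1 w z).val x ^ 2)) * φ.val x) (iI φ) (iI ψ) (iJ ψ) (μ₁ * c ^ 3 + β * c) 0 0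
      fun x => by rcases hv x with h | h <;> simp only [comb, h] <;> ring
    have t2 := int3 (h := fun x => (μ₂ * (comb 1 1 w z).val x ^ 3 + β * ((comb 1 1 w z).val x *
      (comb c 0 w z).val x ^ 2)) * ψ.val x) (iI φ) (iI ψ) (iJ ψ) 0 (μ₂ + β * c ^ 2) μ₂
      fun x => by rcases hv x with h | h <;> simp only [comb, h] <;> ring
    rw [dE, hA, t1, t2]
    ring
  have hG1 : ∀ φ ψ, dG l μ₁ β (comb c 0 w z) (comb 1 1 w z) φ ψ = 2 * bil l (comb c 0 w z) φ -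
      (4 * μ₁ * c ^ 3 + 2 * β * c) * I φ - 2 * β * c ^ 2 * I ψ := fun φ ψ => by
    rw [dG, int3 (iI φ) (iI ψ) (iJ ψ) (4 * μ₁ * c ^ 3 + 2 * β * c) (2 * β * c ^ 2) 0 fun x => by
        rcases hv x with h | h <;> simp only [comb, h] <;> ring]
    ring
  have hG2 : ∀ φ ψ, dG 0 μ₂ β (comb 1 1 w z) (comb c 0 w z) ψ φ = -(2 * β * c) * I φ +
      (2 * p - 4 * μ₂ - 2 * β * c ^ 2) * I ψ + (2 * q - 4 * μ₂) * J ψ := fun φ ψ => by
    rw [dG, hA, int3 (iI φ) (iI ψ) (iJ ψ) (2 * β * c) (4 * μ₂ + 2 * β * c ^ 2) (4 * μ₂) fun x => by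
        rcases hv x with h | h <;> simp only [comb, h] <;> ring]
    ring
  have hne : ∀ s t, 0 < s → ¬ ((comb s t w z).val =ᵐ[volume.restrict (Ioo a b)] 0) :=
    fun s t hs h => (mul_pos hs P0).ne' (by
      rw [← hI s t]
      refine integral_eq_zero_of_ae ?_
      filter_upwards [h] with x hx
      rw [hx]
      simp)
  have q1 : μ₂ < q := by nlinarith [mul_pos hg h2]
  have q2 : q < 2 * μ₂ := by nlinarith [mul_pos hg h2]
  refine ⟨l, l0, comb c 0 w z, comb 1 1 w z, ⟨⟨hne _ _ hc, hne _ _ one_pos, ?_, ?_⟩,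
    fun s t => ?_, fun φ ψ g1 g2 => ?_⟩, comb 0 0 w z, comb 0 1 w z, ?_⟩
  · rw [hB, int3 (iI (comb 1 0 w z)) (iI w) (iI w) (μ₁ * c ^ 4 + β * c ^ 2) 0 0 fun x => by
      rcases hv x with h | h <;> simp only [comb, h] <;> ring]
    have := hI 1 0
    simp only [I] at this
    rw [this]
    ring
  · rw [hA, hI, hJ, int3 (iI (comb 1 0 w z)) (iJ (comb 0 1 w z)) (iI w) (μ₂ + β * c ^ 2) μ₂ 0
      fun x => by rcases hv x with h | h <;> simp only [comb, h] <;> ring]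
    have t1 := hI 1 0
    have t2 := hJ 0 1
    simp only [I, J] at t1 t2
    rw [t1, t2]
    refine mul_left_cancel₀ (show 1 + 2 * g ≠ 0 by positivity) ?_
    linear_combination P * e3 + Q * e2 + e1
  · have d1 : 2 * μ₁ * c ^ 3 * P ≠ 0 := by positivity
    have d2 : (2 * q - 4 * μ₂) * Q ≠ 0 := (mul_neg_of_neg_of_pos (by linarith) Q0).ne
    obtain ⟨x, hx⟩ : ∃ x, x * (2 * μ₁ * c ^ 3 * P) = -s := ⟨_, div_mul_cancel₀ _ d1⟩
    obtain ⟨y, hy⟩ : ∃ y, y * ((2 * q - 4 * μ₂) * Q) = t + 2 * β * c * x * P :=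
      ⟨_, div_mul_cancel₀ _ d2⟩
    refine ⟨comb x 0 w z, comb 0 y w z, ?_, ?_⟩
    · rw [hG1, hB, hI, hI]
      linear_combination -hx
    · rw [hG2, hI, hI, hJ]
      linear_combination hy
  · rw [hG1] at g1
    rw [hG2] at g2
    rw [hE]
    linear_combination (1 / 2) * g1 - g * g2 + c * I φ * e0 + I ψ * e3 + J ψ * e2
  · rw [hE, hB, hI, hI, hJ]
    have := mul_pos (sub_pos.2 q1) Q0
    linarith

lemma swap {l₁ l₂ μ₁ μ₂ β : ℝ} {u v : H10 a b} (h : IsConstrainedCritical l₁ l₂ μ₁ μ₂ β u v ∧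
    ∃ φ ψ : H10 a b, dE l₁ l₂ μ₁ μ₂ β u v φ ψ ≠ 0) : IsConstrainedCritical l₂ l₁ μ₂ μ₁ β v u ∧
    ∃ φ ψ : H10 a b, dE l₂ l₁ μ₂ μ₁ β v u φ ψ ≠ 0 := by
  obtain ⟨⟨⟨n1, n2, n3, n4⟩, h2, h3⟩, φ, ψ, h4⟩ := h
  have e : ∀ φ ψ, dE l₂ l₁ μ₂ μ₁ β v u ψ φ = dE l₁ l₂ μ₁ μ₂ β u v φ ψ := fun _ _ => add_comm _ _
  refine ⟨⟨⟨n2, n1, ?_, ?_⟩, fun s t => ?_, fun ψ φ g1 g2 => (e φ ψ).trans (h3 φ ψ g2 g1)⟩,
    ψ, φ, (e φ ψ).symm ▸ h4⟩
  · simpa only [mul_comm (u.val _ ^ 2)] using n4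
  · simpa only [mul_comm (u.val _ ^ 2)] using n3
  · obtain ⟨φ, ψ, g1, g2⟩ := h2 t s
    exact ⟨ψ, φ, g2, g1⟩

end Pool.Agent.Lib.MP_a38b16_an.NC
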