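import Mathlib

/-! The coupled cubic system on a bounded interval: constrained critical points. -/

set_option autoImplicit false

open MeasureTheory Filter Topology Set
open scoped ContDiff

namespace Pool.Agent.Lib.MP_a38b16_an.NC

/-- An element of `H^1_0(a, b)`: a function and its derivative in `L^2`, limits of test functions
and their derivatives. -/
structure H10 (a b : ℝ) where
  val : ℝ → ℝ
  der : ℝ → ℝ
  memLp_val : MemLp val 2 (volume.restrict (Ioo a b))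
  memLp_der : MemLp der 2 (volume.restrict (Ioo a b))
  approx : ∃ φ : ℕ → ℝ → ℝ,
    (∀ n, ContDiff ℝ ∞ (φ n) ∧ HasCompactSupport (φ n) ∧ tsupport (φ n) ⊆ Ioo a b) ∧
    Tendsto (fun n => eLpNorm (φ n - val) 2 (volume.restrict (Ioo a b))) atTop (𝓝 0) ∧
    Tendsto (fun n => eLpNorm (deriv (φ n) - der) 2 (volume.restrict (Ioo a b))) atTop (𝓝 0)

variable {a b : ℝ}

/-- The scalar product with parameter `l`. -/
noncomputable def bil (l : ℝ) (w φ : H10 a b) : ℝ :=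
  ∫ x in Ioo a b, (w.der x * φ.der x + l * (w.val x * φ.val x))

/-- The Nehari-type set. -/
def InNehari (l₁ l₂ μ₁ μ₂ β : ℝ) (u v : H10 a b) : Prop :=
  ¬ (u.val =ᵐ[volume.restrict (Ioo a b)] 0) ∧ ¬ (v.val =ᵐ[volume.restrict (Ioo a b)] 0) ∧
    bil l₁ u u = ∫ x in Ioo a b, (μ₁ * u.val x ^ 4 + β * (u.val x ^ 2 * v.val x ^ 2)) ∧
    bil l₂ v v = ∫ x in Ioo a b, (μ₂ * v.val x ^ 4 + β * (u.val x ^ 2 * v.val x ^ 2))

/-- The derivative of the energy at `(u, v)` in the direction `(φ, ψ)`. -/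
noncomputable def dE (l₁ l₂ μ₁ μ₂ β : ℝ) (u v φ ψ : H10 a b) : ℝ :=
  (bil l₁ u φ -
      ∫ x in Ioo a b, (μ₁ * u.val x ^ 3 + β * (u.val x * v.val x ^ 2)) * φ.val x) +
    (bil l₂ v ψ -
      ∫ x in Ioo a b, (μ₂ * v.val x ^ 3 + β * (v.val x * u.val x ^ 2)) * ψ.val x)

/-- The derivative at `(u, v)` in the direction `(φ, ψ)` of the constraint
`bil l u u - ∫ (μ u^4 + β u^2 v^2)`. -/
noncomputable def dG (l μ β : ℝ) (u v φ ψ : H10 a b) : ℝ :=
  2 * bil l u φ - ∫ x in Ioo a b, (4 * μ * u.val x ^ 3 * φ.val x +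
    2 * β * (u.val x * v.val x ^ 2) * φ.val x + 2 * β * (u.val x ^ 2 * v.val x) * ψ.val x)

/-- A point of the Nehari-type set at which the two constraints have a surjective derivative and
the derivative of the energy vanishes on the tangent space. -/
def IsConstrainedCritical (l₁ l₂ μ₁ μ₂ β : ℝ) (u v : H10 a b) : Prop :=
  InNehari l₁ l₂ μ₁ μ₂ β u v ∧
    (∀ s t : ℝ, ∃ φ ψ : H10 a b, dG l₁ μ₁ β u v φ ψ = s ∧ dG l₂ μ₂ β v u ψ φ = t) ∧
    ∀ φ ψ : H10 a b, dG l₁ μ₁ β u v φ ψ = 0 → dG l₂ μ₂ β v u ψ φ = 0 →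
      dE l₁ l₂ μ₁ μ₂ β u v φ ψ = 0

end Pool.Agent.Lib.MP_a38b16_an.NC
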