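import Pool.Agent.Lib.MP_a38b16_an.NC.Defs
import Pool.Agent.Lib.MP_a38b16_an.SKit

/-! Elements of `H^1_0(a, b)`: linear combinations, smooth pieces, passage to the limit. -/

set_option autoImplicit false

open MeasureTheory Filter Topology Set Real
open scoped ContDiff ENNReal

namespace Pool.Agent.Lib.MP_a38b16_an.NC

variable {a b : ℝ}

lemma cder {φ : ℝ → ℝ} (h : ContDiff ℝ ∞ φ) : Continuous (deriv φ) :=
  h.continuous_deriv (by simp)

lemma hder {φ : ℝ → ℝ} (h : ContDiff ℝ ∞ φ) (x : ℝ) : HasDerivAt φ (deriv φ x) x :=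
  (h.differentiable (by simp) x).hasDerivAt

/-- Linear combinations. -/
noncomputable def comb (s t : ℝ) (w z : H10 a b) : H10 a b where
  val x := s * w.val x + t * z.val x
  der x := s * w.der x + t * z.der x
  memLp_val := (w.memLp_val.const_mul s).add (z.memLp_val.const_mul t)
  memLp_der := (w.memLp_der.const_mul s).add (z.memLp_der.const_mul t)
  approx := by
    obtain ⟨φ, a3, a4, a5⟩ := w.approx
    obtain ⟨ψ, b3, b4, b5⟩ := z.approx
    refine ⟨fun n x => s * φ n x + t * ψ n x, fun n => ⟨(contDiff_const.mul (a3 n).1).add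
      (contDiff_const.mul (b3 n).1), ((a3 n).2.1.mul_left (f := fun _ => s)).add
      ((b3 n).2.1.mul_left (f := fun _ => t)), (tsupport_add _ _).trans (union_subset
        (tsupport_mul_subset_right.trans (a3 n).2.2)
        (tsupport_mul_subset_right.trans (b3 n).2.2))⟩, ?_, ?_⟩
    · refine S.comb_tendsto s t
        (fun n => (a3 n).1.continuous.aestronglyMeasurable.sub w.memLp_val.1)
        (fun n => (b3 n).1.continuous.aestronglyMeasurable.sub z.memLp_val.1) (fun n => ?_) a4 b4
      ext x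
      simp
      ring
    · refine S.comb_tendsto s t
        (fun n => (cder (a3 n).1).aestronglyMeasurable.sub w.memLp_der.1)
        (fun n => (cder (b3 n).1).aestronglyMeasurable.sub z.memLp_der.1) (fun n => ?_) a5 b5
      ext x
      have := (((hder (a3 n).1 x).const_mul s).fun_add ((hder (b3 n).1 x).const_mul t)).deriv
      simp only [Pi.sub_apply, Pi.add_apply, Pi.smul_apply, smul_eq_mul, this]
      ring

lemma memLp_ind {f : ℝ → ℝ} (hf : Continuous f) (c d : ℝ) :
    MemLp ((Ioo c d).indicator f) 2 (volume.restrict (Ioo a b)) := by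
  obtain ⟨C, hC⟩ := isCompact_Icc.exists_bound_of_continuousOn (hf.continuousOn (s := Icc a b))
  refine MemLp.indicator measurableSet_Ioo (MemLp.of_bound hf.aestronglyMeasurable C ?_)
  filter_upwards [ae_restrict_mem measurableSet_Ioo] with x hx using hC x (Ioo_subset_Icc_self hx)

lemma st_bound : ∃ K : ℝ, 0 ≤ K ∧ ∀ y, |y * deriv smoothTransition (y - 1)| ≤ K := by
  have hc : Continuous fun y => y * deriv smoothTransition (y - 1) :=
    continuous_id.mul ((cder smoothTransition.contDiff).comp (continuous_sub_right 1))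
  obtain ⟨C, hC⟩ := isCompact_Icc.exists_bound_of_continuousOn (hc.continuousOn (s := Icc 1 2))
  have h0 : 0 ≤ C := (norm_nonneg _).trans (hC 1 ⟨le_rfl, one_le_two⟩)
  refine ⟨C, h0, fun y => ?_⟩
  rcases lt_or_ge y 1 with h | h
  · have : deriv smoothTransition (y - 1) = 0 := by
      rw [EventuallyEq.deriv_eq (f := fun _ => (0 : ℝ)), deriv_const]
      filter_upwards [Iio_mem_nhds (show y - 1 < 0 by linarith)] with z hz
        using smoothTransition.zero_of_nonpos (le_of_lt hz)
    simpa [this] using h0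
  rcases le_or_gt y 2 with h' | h'
  · exact hC y ⟨h, h'⟩
  · have : deriv smoothTransition (y - 1) = 0 := by
      rw [EventuallyEq.deriv_eq (f := fun _ => (1 : ℝ)), deriv_const]
      filter_upwards [Ioi_mem_nhds (show 1 < y - 1 by linarith)] with z hz
        using smoothTransition.one_of_one_le (le_of_lt hz)
    simpa [this] using h0

lemma piece_approx {f : ℝ → ℝ} (hf : ContDiff ℝ ∞ f) {c d : ℝ} (hcd : c < d) (hac : a ≤ c)
    (hdb : d ≤ b) (hc : f c = 0) (hd : f d = 0) : ∃ φ : ℕ → ℝ → ℝ,
    (∀ n, ContDiff ℝ ∞ (φ n) ∧ HasCompactSupport (φ n) ∧ tsupport (φ n) ⊆ Ioo a b) ∧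
    Tendsto (fun n => eLpNorm (φ n - (Ioo c d).indicator f) 2 (volume.restrict (Ioo a b)))
      atTop (𝓝 0) ∧
    Tendsto (fun n => eLpNorm (deriv (φ n) - (Ioo c d).indicator (deriv f)) 2
      (volume.restrict (Ioo a b))) atTop (𝓝 0) := by
  obtain ⟨K, hK0, hK⟩ := st_bound
  obtain ⟨M, hM⟩ := isCompact_Icc.exists_bound_of_continuousOn
    (hf.continuous.continuousOn (s := Icc c d))
  obtain ⟨L, hL⟩ := isCompact_Icc.exists_bound_of_continuousOn
    ((cder hf).continuousOn (s := Icc c d))
  have hM0 : 0 ≤ M := (norm_nonneg _).trans (hM c ⟨le_rfl, hcd.le⟩)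
  have hL0 : 0 ≤ L := (norm_nonneg _).trans (hL c ⟨le_rfl, hcd.le⟩)
  have lip : ∀ x ∈ Icc c d, ∀ y ∈ Icc c d, |f y - f x| ≤ L * |y - x| := fun x hx y hy =>
    (convex_Icc c d).norm_image_sub_le_of_norm_hasDerivWithin_le
      (fun z _ => (hder hf z).hasDerivWithinAt) hL hx hy
  let r : ℕ → ℝ → ℝ := fun n x => n * ((x - c) * (d - x)) - 1
  have hr : ∀ n, ContDiff ℝ ∞ (r n) := fun n =>
    (contDiff_const.mul ((contDiff_id.sub contDiff_const).mul
      (contDiff_const.sub contDiff_id))).sub contDiff_const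
  have hr' : ∀ n x, HasDerivAt (r n) (n * ((d - x) - (x - c))) x := fun n x => by
    have := ((((hasDerivAt_id x).sub_const c).fun_mul
      ((hasDerivAt_id x).const_sub d)).const_mul (n : ℝ)).sub_const 1
    exact this.congr_deriv (by simp only [id]; ring)
  let φ : ℕ → ℝ → ℝ := fun n x => f x * smoothTransition (r n x)
  have hφ : ∀ n, ContDiff ℝ ∞ (φ n) := fun n => hf.mul (smoothTransition.contDiff.comp (hr n))
  have hφ' : ∀ n x, deriv (φ n) x = deriv f x * smoothTransition (r n x) +
      f x * (deriv smoothTransition (r n x) * (n * ((d - x) - (x - c)))) := fun n x =>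
    ((hder hf x).fun_mul ((hder smoothTransition.contDiff (r n x)).comp x (hr' n x))).deriv
  have hin : ∀ n x, 0 ≤ r n x → x ∈ Ioo c d := fun n x h => by
    have h1 : 0 < (x - c) * (d - x) := by
      by_contra h2
      have := mul_nonpos_of_nonneg_of_nonpos (Nat.cast_nonneg (α := ℝ) n) (not_lt.1 h2)
      simp only [r] at h
      linarith
    rcases pos_and_pos_or_neg_and_neg_of_mul_pos h1 with h | h
    · exact ⟨by linarith [h.1], by linarith [h.2]⟩
    · linarith [h.1, h.2]
  have hsupp : ∀ n, tsupport (φ n) ⊆ Ioo c d := fun n =>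
    (closure_minimal (s := Function.support (φ n)) (t := {x | 0 ≤ r n x})
      (fun x hx => not_lt.1 fun h : r n x < 0 => hx (by
        simp only [φ, smoothTransition.zero_of_nonpos h.le, mul_zero]))
      (isClosed_le continuous_const (hr n).continuous)).trans (hin n)
  have hout : ∀ n, ∀ x ∉ Ioo c d, φ n x = 0 ∧ deriv (φ n) x = 0 := fun n x hx =>
    ⟨image_eq_zero_of_notMem_tsupport fun h => hx (hsupp n h),
      image_eq_zero_of_notMem_tsupport fun h => hx (hsupp n (tsupport_deriv_subset h))⟩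
  have hev : ∀ x ∈ Ioo c d, ∀ᶠ n in atTop, φ n =ᶠ[𝓝 x] f := fun x hx => by
    have h1 : 0 < (x - c) * (d - x) := mul_pos (by linarith [hx.1]) (by linarith [hx.2])
    filter_upwards [(tendsto_natCast_atTop_atTop.atTop_mul_const h1).eventually_gt_atTop 2]
      with n hn
    filter_upwards [(hr n).continuous.continuousAt.eventually
      (Ioi_mem_nhds (show 1 < r n x by simp only [r]; linarith))] with y hy
    simp [φ, smoothTransition.one_of_one_le (le_of_lt hy)]
  have hσ : ∀ y, |smoothTransition y - 1| ≤ 1 := fun y =>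
    abs_le.2 ⟨by linarith [smoothTransition.nonneg y], by linarith [smoothTransition.le_one y]⟩
  refine ⟨φ, fun n => ⟨hφ n, HasCompactSupport.of_support_subset_isCompact isCompact_Icc
    (((subset_tsupport _).trans (hsupp n)).trans Ioo_subset_Icc_self),
    (hsupp n).trans (Ioo_subset_Ioo hac hdb)⟩, ?_, ?_⟩
  · refine S.dom (G := fun _ => M) (fun n => (hφ n).continuous.aestronglyMeasurable.sub
      (memLp_ind hf.continuous c d).1) (memLp_const M) (fun n => ae_of_all _ fun x => ?_)
      (ae_of_all _ fun x => ?_)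
    · by_cases hx : x ∈ Ioo c d
      · rw [Pi.sub_apply, indicator_of_mem hx, show φ n x - f x =
          f x * (smoothTransition (r n x) - 1) by simp only [φ]; ring, norm_mul]
        exact (mul_le_of_le_one_right (norm_nonneg _) (hσ _)).trans (hM x (Ioo_subset_Icc_self hx))
      · simpa [hx, (hout n x hx).1] using hM0
    · by_cases hx : x ∈ Ioo c d
      · refine tendsto_const_nhds.congr' ?_
        filter_upwards [hev x hx] with n hn
        simp [hx, hn.eq_of_nhds]
      · simp [hx, fun n => (hout n x hx).1]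
  · refine S.dom (G := fun _ => L + 2 * L * K) (fun n => (cder (hφ n)).aestronglyMeasurable.sub
      (memLp_ind (cder hf) c d).1) (memLp_const _) (fun n => ae_of_all _ fun x => ?_)
      (ae_of_all _ fun x => ?_)
    · by_cases hx : x ∈ Ioo c d
      · have hx' := Ioo_subset_Icc_self hx
        have p1 : 0 < x - c := by linarith [hx.1]
        have p2 : 0 < d - x := by linarith [hx.2]
        have l1 := lip c ⟨le_rfl, hcd.le⟩ x hx'
        have l2 := lip d ⟨hcd.le, le_rfl⟩ x hx'
        rw [hc, sub_zero, abs_of_pos p1] at l1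
        rw [hd, sub_zero, abs_sub_comm, abs_of_pos p2] at l2
        have k := hK (n * ((x - c) * (d - x)))
        rw [abs_mul, abs_of_nonneg (by positivity)] at k
        have e : |f x| * |(d - x) - (x - c)| ≤ 2 * L * ((x - c) * (d - x)) := by
          have : |(d - x) - (x - c)| ≤ (d - x) + (x - c) := abs_le.2 ⟨by linarith, by linarith⟩
          nlinarith [mul_le_mul_of_nonneg_left this (abs_nonneg (f x)),
            mul_le_mul_of_nonneg_right l1 p2.le, mul_le_mul_of_nonneg_right l2 p1.le]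
        rw [Pi.sub_apply, indicator_of_mem hx, hφ', show ∀ A B C : ℝ, A * B + C - A =
          A * (B - 1) + C from fun _ _ _ => by ring]
        refine (norm_add_le _ _).trans (add_le_add ?_ ?_)
        · rw [norm_mul]
          exact (mul_le_of_le_one_right (norm_nonneg _) (hσ _)).trans (hL x hx')
        · rw [Real.norm_eq_abs, abs_mul, abs_mul, abs_mul, Nat.abs_cast]
          nlinarith [mul_le_mul_of_nonneg_left e (show 0 ≤ (n : ℝ) *
            |deriv smoothTransition (r n x)| by positivity),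
            mul_le_mul_of_nonneg_left k (show 0 ≤ 2 * L by positivity)]
      · simp only [Pi.sub_apply, indicator_of_notMem hx, (hout n x hx).2, sub_zero, norm_zero]
        positivity
    · by_cases hx : x ∈ Ioo c d
      · refine tendsto_const_nhds.congr' ?_
        filter_upwards [hev x hx] with n hn
        simp [hx, hn.deriv_eq]
      · simp [hx, fun n => (hout n x hx).2]

/-- A smooth function cut off at two of its zeros. -/
noncomputable def piece {f : ℝ → ℝ} (hf : ContDiff ℝ ∞ f) {c d : ℝ} (hcd : c < d) (hac : a ≤ c)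
    (hdb : d ≤ b) (hc : f c = 0) (hd : f d = 0) : H10 a b :=
  ⟨(Ioo c d).indicator f, (Ioo c d).indicator (deriv f), memLp_ind hf.continuous c d,
    memLp_ind (cder hf) c d, piece_approx hf hcd hac hdb hc hd⟩

lemma pair_lim {μ : Measure ℝ} {F w : ℝ → ℝ} {φ : ℕ → ℝ → ℝ} (hF : MemLp F 2 μ)
    (hw : MemLp w 2 μ) (hφ : ∀ n, MemLp (φ n) 2 μ)
    (h : Tendsto (fun n => eLpNorm (φ n - w) 2 μ) atTop (𝓝 0)) :
    Tendsto (fun n => ∫ x, F x * φ n x ∂μ) atTop (𝓝 (∫ x, F x * w x ∂μ)) := by
  refine tendsto_integral_of_L1' _ (hF.integrable_mul hw).1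
    (Eventually.of_forall fun n => hF.integrable_mul (hφ n)) ?_
  have h1 := ENNReal.Tendsto.const_mul (a := eLpNorm F 2 μ) h (Or.inr hF.2.ne)
  rw [mul_zero] at h1
  refine tendsto_of_tendsto_of_tendsto_of_le_of_le tendsto_const_nhds h1 (fun _ => zero_le)
    fun n => le_trans (le_of_eq ?_)
      (eLpNorm_smul_le_mul_eLpNorm (p := 2) (q := 2) (r := 1) ((hφ n).1.sub hw.1) hF.1)
  congr 1
  ext x
  simp [mul_sub]

lemma weak_lim {F G : ℝ → ℝ} (hF : MemLp F 2 (volume.restrict (Ioo a b)))
    (hG : MemLp G 2 (volume.restrict (Ioo a b)))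
    (h : ∀ φ : ℝ → ℝ, ContDiff ℝ ∞ φ → φ a = 0 → φ b = 0 →
      ∫ x in Ioo a b, F x * deriv φ x = ∫ x in Ioo a b, G x * φ x) (ψ : H10 a b) :
    ∫ x in Ioo a b, F x * ψ.der x = ∫ x in Ioo a b, G x * ψ.val x := by
  obtain ⟨φ, h1, h2, h3⟩ := ψ.approx
  have m1 : ∀ n, MemLp (φ n) 2 (volume.restrict (Ioo a b)) := fun n =>
    ((h1 n).1.continuous.memLp_of_hasCompactSupport (h1 n).2.1).restrict _
  have m2 : ∀ n, MemLp (deriv (φ n)) 2 (volume.restrict (Ioo a b)) := fun n =>
    ((cder (h1 n).1).memLp_of_hasCompactSupport (h1 n).2.1.deriv).restrict _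
  refine tendsto_nhds_unique (pair_lim hF ψ.memLp_der m2 h3)
    ((pair_lim hG ψ.memLp_val m1 h2).congr fun n => (h _ (h1 n).1 ?_ ?_).symm)
  · exact image_eq_zero_of_notMem_tsupport fun h => lt_irrefl _ ((h1 n).2.2 h).1
  · exact image_eq_zero_of_notMem_tsupport fun h => lt_irrefl _ ((h1 n).2.2 h).2

lemma int_ind {c d : ℝ} (hcd : c < d) (hac : a ≤ c) (hdb : d ≤ b) (g : ℝ → ℝ) :
    ∫ x in Ioo a b, (Ioo c d).indicator g x = ∫ x in c..d, g x := by
  rw [setIntegral_indicator measurableSet_Ioo, inter_eq_right.2 (Ioo_subset_Ioo hac hdb),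
    intervalIntegral.integral_of_le hcd.le, integral_Ioc_eq_integral_Ioo]

lemma parts {f φ : ℝ → ℝ} (hf : ContDiff ℝ ∞ f) (hφ : ContDiff ℝ ∞ φ) {κ : ℝ}
    (h : ∀ x, HasDerivAt (deriv f) (-κ * f x ^ 3) x) (c d : ℝ) :
    ∫ x in c..d, deriv f x * deriv φ x =
      deriv f d * φ d - deriv f c * φ c + ∫ x in c..d, κ * f x ^ 3 * φ x := by
  rw [intervalIntegral.integral_mul_deriv_eq_deriv_mul (fun x _ => h x) (fun x _ => hder hφ x)
    ((continuous_const.mul (hf.continuous.pow 3)).intervalIntegrable _ _)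
    ((cder hφ).intervalIntegrable _ _), sub_eq_add_neg, ← intervalIntegral.integral_neg]
  congr 2
  ext x
  ring

end Pool.Agent.Lib.MP_a38b16_an.NC
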