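import Mathlib

/-! The lemniscatic sine. -/

set_option autoImplicit false

open MeasureTheory Filter Topology Set Real
open scoped ContDiff

namespace Pool.Agent.Lib.MP_a38b16_an.NC

/-- The speed of the angle. -/
noncomputable def rt (θ : ℝ) : ℝ := √(1 + sin θ ^ 2)

lemma rt_pos (θ : ℝ) : 0 < rt θ := sqrt_pos.2 (by positivity)

lemma rt_sq (θ : ℝ) : rt θ ^ 2 = 1 + sin θ ^ 2 := sq_sqrt (by positivity)

lemma rt_le (θ : ℝ) : rt θ ≤ 2 := by
  have := rt_sq θ
  have := sin_sq_le_one θ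
  have := rt_pos θ
  nlinarith

lemma contDiff_rt : ContDiff ℝ ∞ rt :=
  (contDiff_const.add (contDiff_sin.pow 2)).sqrt fun x => by positivity

lemma hasDerivAt_rt (θ : ℝ) : HasDerivAt rt (sin θ * cos θ / rt θ) θ := by
  have h0 : HasDerivAt (fun y => 1 + sin y ^ 2) (2 * (sin θ * cos θ)) θ := by
    simpa [mul_assoc] using ((hasDerivAt_sin θ).fun_pow 2).const_add 1
  have h := h0.sqrt (by positivity)
  rwa [mul_div_mul_left _ _ two_ne_zero] at h

lemma prim {h : ℝ → ℝ} (hc : Continuous h) (θ : ℝ) :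
    HasDerivAt (fun t => ∫ y in (0 : ℝ)..t, h y) (h θ) θ :=
  (hc.integral_hasStrictDerivAt 0 θ).hasDerivAt

lemma prim_per {h : ℝ → ℝ} (hc : Continuous h) (hp : Function.Periodic h π) (k : ℤ) :
    ∫ y in (0 : ℝ)..(k * π), h y = k * ∫ y in (0 : ℝ)..π, h y := by
  simpa using hp.intervalIntegral_add_zsmul_eq k 0 fun _ _ => hc.intervalIntegrable _ _

theorem exists_sl : ∃ (s : ℝ → ℝ) (T J : ℝ), 0 < T ∧ 0 < J ∧ ContDiff ℝ ∞ s ∧
    (∀ x, HasDerivAt (deriv s) (-2 * s x ^ 3) x) ∧ (∀ k : ℤ, s (k * T) = 0) ∧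
    ∀ k : ℤ, ∫ x in (0 : ℝ)..(k * T), s x ^ 4 = k * J := by
  have hs : ContDiff ℝ ∞ fun θ => (rt θ)⁻¹ := contDiff_rt.inv fun θ => (rt_pos θ).ne'
  have hc := hs.continuous
  have hper : Function.Periodic rt π := fun θ => by simp [rt]
  let X : ℝ → ℝ := fun t => ∫ y in (0 : ℝ)..t, (rt y)⁻¹
  have hX : ∀ θ, HasDerivAt X (rt θ)⁻¹ θ := prim hc
  have hXd : Differentiable ℝ X := fun θ => (hX θ).differentiableAt
  have hXs : ContDiff ℝ ∞ X := contDiff_infty_iff_deriv.2
    ⟨hXd, by rw [show deriv X = fun θ => (rt θ)⁻¹ from funext fun θ => (hX θ).deriv]; exact hs⟩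
  have hmono : StrictMono X := strictMono_of_deriv_pos fun θ => by
    rw [(hX θ).deriv]; exact inv_pos.2 (rt_pos θ)
  have hk : ∀ k : ℤ, X (k * π) = k * X π := prim_per hc fun θ => by rw [hper θ]
  have hT : 0 < X π := by simpa [X] using hmono pi_pos
  have hsurj : Function.Surjective X := fun y => by
    obtain ⟨n, hn⟩ := exists_nat_ge (|y| / X π)
    rw [div_le_iff₀ hT] at hn
    have h1 := hk n
    have h2 := hk (-n)
    push_cast at h1 h2
    refine mem_range_of_exists_le_of_exists_ge hXd.continuous ⟨-n * π, ?_⟩ ⟨n * π, ?_⟩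
    · rw [h2]; linarith [neg_abs_le y]
    · rw [h1]; linarith [le_abs_self y]
  let e : ℝ ≃ₜ ℝ := (hmono.orderIsoOfSurjective X hsurj).toHomeomorph
  have he : (e : ℝ → ℝ) = X := rfl
  have hΘs : ContDiff ℝ ∞ e.symm :=
    e.contDiff_symm_deriv (fun θ => (inv_pos.2 (rt_pos θ)).ne') hX hXs
  have hΘ : ∀ x, HasDerivAt e.symm (rt (e.symm x)) x := fun x => by
    simpa using (hX (e.symm x)).of_local_left_inverse e.symm.continuous.continuousAt
      (inv_pos.2 (rt_pos _)).ne' (Eventually.of_forall fun y => e.apply_symm_apply y)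
  have hΘk : ∀ k : ℤ, e.symm (k * X π) = k * π := fun k => by
    rw [← hk, ← he, e.symm_apply_apply]
  have hd : deriv (fun x => sin (e.symm x)) = fun x => cos (e.symm x) * rt (e.symm x) :=
    funext fun x => (hΘ x).sin.deriv
  have hc4 : Continuous fun θ => sin θ ^ 4 * (rt θ)⁻¹ := (continuous_sin.pow 4).mul hc
  refine ⟨fun x => sin (e.symm x), X π, ∫ y in (0 : ℝ)..π, sin y ^ 4 * (rt y)⁻¹, hT, ?_,
    contDiff_sin.comp hΘs, fun x => ?_, fun k => ?_, fun k => ?_⟩
  · refine intervalIntegral.intervalIntegral_pos_of_pos_on (hc4.intervalIntegrable _ _)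
      (fun y hy => mul_pos (pow_pos (sin_pos_of_pos_of_lt_pi hy.1 hy.2) 4)
        (inv_pos.2 (rt_pos y))) pi_pos
  · rw [hd]
    have h := (hΘ x).cos.mul ((hasDerivAt_rt (e.symm x)).comp x (hΘ x))
    refine h.congr_deriv ?_
    have h1 := (rt_pos (e.symm x)).ne'
    have h2 := rt_sq (e.symm x)
    have h3 := sin_sq_add_cos_sq (e.symm x)
    simp only [Function.comp]
    rw [div_mul_cancel₀ _ h1]
    linear_combination (-(sin (e.symm x))) * h2 + (sin (e.symm x)) * h3
  · simp only [hΘk]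
    exact sin_int_mul_pi k
  · have h1 : ∀ x, HasDerivAt (fun x => ∫ y in (0 : ℝ)..(e.symm x), sin y ^ 4 * (rt y)⁻¹)
        (sin (e.symm x) ^ 4) x := fun x => by
      have := (prim hc4 (e.symm x)).comp x (hΘ x)
      rwa [mul_assoc, inv_mul_cancel₀ (rt_pos _).ne', mul_one] at this
    have h0 : e.symm 0 = 0 := by simpa using hΘk 0
    rw [intervalIntegral.integral_eq_sub_of_hasDerivAt (fun x _ => h1 x)
      (((continuous_sin.comp e.symm.continuous).pow 4).intervalIntegrable _ _), hΘk, h0,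
      prim_per hc4 fun θ => by rw [hper θ, sin_add_pi]; ring]
    simp

end Pool.Agent.Lib.MP_a38b16_an.NC
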