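import Pool.Agent.Lib.MP_a38b16_an.NC.Core
import Pool.Agent.Lib.MP_a38b16_an.NC.Sl

/-! Gluing two rescaled lemniscatic sines. -/

set_option autoImplicit false

open MeasureTheory Filter Topology Set
open scoped ContDiff

namespace Pool.Agent.Lib.MP_a38b16_an.NC

lemma scale {s : ℝ → ℝ} {T J : ℝ} (hs : ContDiff ℝ ∞ s)
    (h2 : ∀ x, HasDerivAt (deriv s) (-2 * s x ^ 3) x) (h0 : ∀ k : ℤ, s (k * T) = 0)
    (h4 : ∀ k : ℤ, ∫ x in (0 : ℝ)..(k * T), s x ^ 4 = k * J) {A η κ : ℝ} (hη : 0 < η)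
    (hκ : κ * A ^ 2 = 2 * η ^ 2) : ∃ f : ℝ → ℝ, ContDiff ℝ ∞ f ∧
      (∀ x, HasDerivAt (deriv f) (-κ * f x ^ 3) x) ∧ deriv f 0 = A * η * deriv s 0 ∧
      (∀ k : ℤ, f (k * T / η) = 0) ∧
      ∀ k : ℤ, ∫ x in (0 : ℝ)..(k * T / η), f x ^ 4 = A ^ 4 * (k * J) / η := by
  have l : ∀ x, HasDerivAt (fun x => η * x) η x := fun x => by
    simpa using (hasDerivAt_id x).const_mul η
  have hd : deriv (fun x => A * s (η * x)) = fun x => A * (deriv s (η * x) * η) :=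
    funext fun x => (((hder hs (η * x)).comp x (l x)).const_mul A).deriv
  refine ⟨fun x => A * s (η * x), contDiff_const.mul (hs.comp (contDiff_const.mul contDiff_id)),
    fun x => ?_, ?_, fun k => ?_, fun k => ?_⟩
  · rw [hd]
    refine ((((h2 (η * x)).comp x (l x)).mul_const η).const_mul A).congr_deriv ?_
    linear_combination A * s (η * x) ^ 3 * hκ
  · rw [hd]
    simp only [mul_zero]
    ring
  · simp only [mul_div_cancel₀ _ hη.ne', h0, mul_zero]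
  · simp only [mul_pow]
    rw [intervalIntegral.integral_const_mul,
      intervalIntegral.integral_comp_mul_left (fun x => s x ^ 4) hη.ne', mul_zero,
      mul_div_cancel₀ _ hη.ne', h4, smul_eq_mul]
    ring

lemma params {μ₁ μ₂ β : ℝ} (h1 : 0 < μ₁) (h2 : 0 < μ₂) (hβ : μ₁ * μ₂ < β ^ 2) (hb : μ₂ < β) :
    ∃ (k m : ℤ) (t g : ℝ), 0 < k ∧ 0 < m ∧ 0 < t ∧ 0 < g ∧ μ₂ * t ^ 4 ≤ β ∧
      μ₁ * μ₂ * (k + t ^ 5 * m) = β ^ 2 * k ∧
      4 * g ^ 2 * β ^ 2 = μ₁ * μ₂ * ((t ^ 4 - 1) * (1 + 4 * g)) := by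
  have h12 := mul_pos h1 h2
  obtain ⟨r, hr⟩ : ∃ r, r * (μ₁ * μ₂) = β ^ 2 := ⟨_, div_mul_cancel₀ _ h12.ne'⟩
  have r1 : 0 < r - 1 := by
    by_contra h
    nlinarith
  have b1 : 1 < β / μ₂ := (one_lt_div h2).2 hb
  obtain ⟨ρ, ρ1, ρ2⟩ := exists_rat_btwn (div_lt_div_of_pos_right b1 r1)
  rw [div_lt_iff₀ r1] at ρ1
  rw [lt_div_iff₀ r1, lt_div_iff₀ h2] at ρ2
  have ρ0 : (0 : ℝ) < ρ := by
    by_contra h
    nlinarith
  obtain ⟨t, t0, ht⟩ : ∃ t : ℝ, 0 < t ∧ t ^ 5 = ρ * (r - 1) :=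
    ⟨(ρ * (r - 1)) ^ ((5 : ℕ) : ℝ)⁻¹, Real.rpow_pos_of_pos (by linarith) _,
      Real.rpow_inv_natCast_pow (by linarith) (by norm_num)⟩
  have t1 : 1 < t := lt_of_pow_lt_pow_left₀ 5 t0.le (by rw [ht, one_pow]; exact ρ1)
  have t4 : 0 < t ^ 4 - 1 := sub_pos.2 (one_lt_pow₀ t1 (by norm_num))
  obtain ⟨D, D0, hD⟩ : ∃ D : ℝ, 0 ≤ D ∧ D ^ 2 = (t ^ 4 - 1) ^ 2 + r * (t ^ 4 - 1) :=
    ⟨√_, Real.sqrt_nonneg _, Real.sq_sqrt (by nlinarith)⟩
  obtain ⟨g, hg⟩ : ∃ g, g * (2 * r) = t ^ 4 - 1 + D := ⟨_, div_mul_cancel₀ _ (by linarith)⟩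
  have hq : (ρ : ℝ) * (ρ.den : ℤ) = ρ.num := by exact_mod_cast ρ.mul_den_eq_num
  refine ⟨ρ.num, ρ.den, t, g, Rat.num_pos.2 (by exact_mod_cast ρ0), by exact_mod_cast ρ.den_pos,
    t0, ?_, ?_, ?_, ?_⟩
  · by_contra h
    nlinarith
  · have : t ^ 4 ≤ t ^ 5 := pow_le_pow_right₀ t1.le (by norm_num)
    nlinarith
  · rw [ht, ← hr, ← hq]
    ring
  · rw [← hr]
    have : r * (4 * g ^ 2 * r) = r * ((t ^ 4 - 1) * (1 + 4 * g)) := by
      have e : D = g * (2 * r) - (t ^ 4 - 1) := by linarith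
      rw [e] at hD
      linear_combination hD
    have := mul_left_cancel₀ (show r ≠ 0 by linarith) this
    linear_combination μ₁ * μ₂ * this

theorem half {μ₁ μ₂ β : ℝ} (h1 : 0 < μ₁) (h2 : 0 < μ₂) (hβ : μ₁ * μ₂ < β ^ 2) (hb : μ₂ < β) :
    ∃ a b l : ℝ, a < b ∧ 0 ≤ l ∧ ∃ u v : H10 a b, IsConstrainedCritical l 0 μ₁ μ₂ β u v ∧
      ∃ φ ψ : H10 a b, dE l 0 μ₁ μ₂ β u v φ ψ ≠ 0 := by
  obtain ⟨s, T, J, T0, J0, hs, s2, s0, s4⟩ := exists_sl
  obtain ⟨k, m, t, g, k0, m0, t0, g0, p1, p2, p3⟩ := params h1 h2 hβ hb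
  have β0 : 0 < β := h2.trans hb
  have k0' : (0 : ℝ) < k := by exact_mod_cast k0
  have m0' : (0 : ℝ) < m := by exact_mod_cast m0
  obtain ⟨q, q0, hq⟩ : ∃ q, 0 < q ∧ (1 + 2 * g) * q = μ₂ * (1 + 4 * g) :=
    ⟨μ₂ * (1 + 4 * g) / (1 + 2 * g), by positivity, mul_div_cancel₀ _ (by positivity)⟩
  obtain ⟨c, c0, hc⟩ : ∃ c, 0 < c ∧ μ₁ * c ^ 2 = 2 * g * β :=
    ⟨√(2 * g * β / μ₁), Real.sqrt_pos.2 (by positivity), by
      rw [Real.sq_sqrt (by positivity), mul_div_cancel₀ _ h1.ne']⟩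
  obtain ⟨η, η0, hη⟩ : ∃ η, 0 < η ∧ q * t ^ 2 = 2 * η ^ 2 :=
    ⟨√(q * t ^ 2 / 2), Real.sqrt_pos.2 (by positivity), by
      rw [Real.sq_sqrt (by positivity)]; ring⟩
  obtain ⟨f, f1, f2, f3, f4, f5⟩ := scale hs s2 s0 s4 (A := 1) (η := t * η) (κ := q * t ^ 4)
    (by positivity) (by linear_combination t ^ 2 * hη)
  obtain ⟨h, g1, g2, g3, g4, g5⟩ := scale hs s2 s0 s4 (A := t) (η := η) (κ := q) η0 hη
  obtain ⟨b, hb'⟩ : ∃ b, b = k * T / (t * η) := ⟨_, rfl⟩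
  obtain ⟨a, ha'⟩ : ∃ a, a = (-m : ℤ) * T / η := ⟨_, rfl⟩
  have b0 : 0 < b := by rw [hb']; positivity
  have a0 : a < 0 := by
    rw [ha']
    push_cast
    rw [neg_mul, neg_div, neg_lt_zero]
    positivity
  have f0 : f 0 = 0 := by simpa using f4 0
  have h0 : h 0 = 0 := by simpa using g4 0
  have fb : f b = 0 := hb' ▸ f4 k
  have ha : h a = 0 := ha' ▸ g4 (-m)
  have dis : ∀ (F G : ℝ → ℝ) (x : ℝ), (Ioo 0 b).indicator F x = 0 ∨ (Ioo a 0).indicator G x = 0 :=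
    fun F G x => (le_total x 0).imp (fun e => indicator_of_notMem (fun h => h.1.not_ge e) _)
      fun e => indicator_of_notMem (fun h => h.2.not_ge e) _
  have pw : ∀ (S : Set ℝ) (F : ℝ → ℝ) (n : ℕ) (x : ℝ), S.indicator F x ^ (n + 1) =
      S.indicator (fun x => F x ^ (n + 1)) x := fun S F n x => by
    by_cases e : x ∈ S <;> simp [e]
  have two : ∀ F G : ℝ → ℝ, Continuous F → Continuous G →
      ∫ x in Ioo a b, ((Ioo 0 b).indicator F x + (Ioo a 0).indicator G x) =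
        (∫ x in (0 : ℝ)..b, F x) + ∫ x in a..0, G x := fun F G hF hG => by
    rw [integral_add ((memLp_ind hF 0 b).integrable one_le_two)
      ((memLp_ind hG a 0).integrable one_le_two), int_ind b0 a0.le le_rfl, int_ind a0 le_rfl b0.le]
  have n1 : MemLp (fun x => (Ioo 0 b).indicator f x ^ 3) 2 (volume.restrict (Ioo a b)) := by
    simp only [pw _ _ 2]
    exact memLp_ind (f1.continuous.pow 3) 0 b
  have n2 : MemLp (fun x => (Ioo a 0).indicator h x ^ 3) 2 (volume.restrict (Ioo a b)) := by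
    simp only [pw _ _ 2]
    exact memLp_ind (g1.continuous.pow 3) a 0
  obtain ⟨l, l0, H⟩ := core (piece f1 b0 a0.le le_rfl f0 fb) (piece g1 a0 le_rfl b0.le ha h0)
    (q * t ^ 4) q (k * J / (t * η)) (t ^ 4 * (m * J) / η) μ₁ μ₂ β g c n1 n2 (dis _ _) (dis _ _)
    (weak_lim ((memLp_ind (cder f1) 0 b).add (memLp_ind (cder g1) a 0))
      ((n1.const_mul _).add (n2.const_mul _)) fun φ hφ φa φb => by
        have e1 : ∀ x, ((Ioo 0 b).indicator (deriv f) x + (Ioo a 0).indicator (deriv h) x) *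
            deriv φ x = (Ioo 0 b).indicator (fun x => deriv f x * deriv φ x) x +
              (Ioo a 0).indicator (fun x => deriv h x * deriv φ x) x := fun x => by
          rw [add_mul, indicator_mul_left, indicator_mul_left]
        have e2 : ∀ x, (q * t ^ 4 * (Ioo 0 b).indicator f x ^ 3 +
            q * (Ioo a 0).indicator h x ^ 3) * φ x =
              (Ioo 0 b).indicator (fun x => q * t ^ 4 * f x ^ 3 * φ x) x +
              (Ioo a 0).indicator (fun x => q * h x ^ 3 * φ x) x := fun x => by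
          by_cases e : x ∈ Ioo 0 b <;> by_cases e' : x ∈ Ioo a 0 <;> simp [e, e', add_mul]
        simp only [piece, e1, e2]
        rw [two (fun x => deriv f x * deriv φ x) (fun x => deriv h x * deriv φ x)
            ((cder f1).mul (cder hφ)) ((cder g1).mul (cder hφ)),
          two (fun x => q * t ^ 4 * f x ^ 3 * φ x) (fun x => q * h x ^ 3 * φ x)
            ((continuous_const.mul (f1.continuous.pow 3)).mul hφ.continuous)
            ((continuous_const.mul (g1.continuous.pow 3)).mul hφ.continuous),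
          parts f1 hφ f2, parts g1 hφ g2, φa, φb, f3, g3]
        ring)
    (by
      simp only [piece, pw _ _ 3]
      rw [int_ind b0 a0.le le_rfl, hb', f5, one_pow, one_mul])
    (by
      simp only [piece, pw _ _ 3]
      rw [int_ind a0 le_rfl b0.le, intervalIntegral.integral_symm, ha', g5]
      push_cast
      ring)
    (by positivity) (by positivity) h1 h2 g0 c0 hc
    (by
      have e : 2 * g * μ₂ * (k + t ^ 5 * m) = β * c ^ 2 * k :=
        mul_left_cancel₀ h1.ne' (by linear_combination 2 * g * p2 - β * k * hc)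
      field_simp
      linear_combination e)
    hq
    (by
      refine mul_left_cancel₀ h1.ne' ?_
      linear_combination μ₁ * t ^ 4 * hq - p3 - 2 * g * β * hc)
    (by
      refine le_of_mul_le_mul_left ?_ (show 0 < 1 + 2 * g by positivity)
      rw [← mul_assoc, hq]
      nlinarith [mul_le_mul_of_nonneg_left p1 (show 0 ≤ 1 + 4 * g by positivity),
        mul_nonneg β0.le (sq_nonneg g)])
  exact ⟨a, b, l, a0.trans b0, l0, H⟩

theorem main (μ₁ μ₂ β : ℝ) (h1 : 0 < μ₁) (h2 : 0 < μ₂) (hβ : √(μ₁ * μ₂) < β) :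
    ∃ a b l₁ l₂ : ℝ, a < b ∧ 0 ≤ l₁ ∧ 0 ≤ l₂ ∧ ∃ u v : H10 a b,
      IsConstrainedCritical l₁ l₂ μ₁ μ₂ β u v ∧
        ∃ φ ψ : H10 a b, dE l₁ l₂ μ₁ μ₂ β u v φ ψ ≠ 0 := by
  have β0 : 0 < β := (Real.sqrt_nonneg _).trans_lt hβ
  have h := (Real.sqrt_lt' β0).1 hβ
  rcases lt_or_ge μ₂ β with e | e
  · obtain ⟨a, b, l, hab, l0, H⟩ := half h1 h2 h e
    exact ⟨a, b, l, 0, hab, l0, le_rfl, H⟩
  · obtain ⟨a, b, l, hab, l0, u, v, H⟩ := half h2 h1 (by rwa [mul_comm]) (by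
      by_contra e'
      nlinarith)
    exact ⟨a, b, 0, l, hab, le_rfl, l0, v, u, swap H⟩

end Pool.Agent.Lib.MP_a38b16_an.NC
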